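import Pool.Agent.H149Z.GoodProof

/-!
# MP_be1d92_co: the number of good-subset retractions is unbounded
-/

set_option autoImplicit false

namespace Pool.Agent.Results.MP_be1d92_co.AUnbounded

open Pool.Agent.H149Z.GoodSub

/-- For every `N` there is a chain-complete ordered set without infinite antichains for which
exactly `N` successive passages to good subsets are needed to reach a finite set, both when a good
subset is required to funnel each point through exactly one of its points and when it is only
required to funnel each point through at least one of its points. -/
theorem result (N : ℕ) : ∃ (P : Type) (_ : PartialOrder P),
    ChainComplete P ∧ NoInfiniteAntichain P ∧ gamma P = N ∧ gammaDom P = N :=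
  main N

end Pool.Agent.Results.MP_be1d92_co.AUnbounded
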